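import Pool.Agent.helper67.DL.SpecG

/-! # Project dl, module GA: nowhere vanishing forms and quotients of forms -/

namespace Pool.Agent.DL

open Matrix Complex
open scoped ComplexOrder Manifold ContDiff

theorem GA : GA_stmt := by
  intro X _ _ U η hη h0
  have h1 : ∀ e ∈ atlas ℂ X, ∀ x ∈ U, x ∈ e.source → η e x ≠ 0 := by
    intro e he x hx hxe hcon
    have h2 := hη.2 (chartAt ℂ x) (chart_mem_atlas ℂ x) e he x hx (mem_chart_source ℂ x) hxe
    rw [hcon, zero_mul] at h2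
    exact h0 x hx h2
  have h3 : ∀ e ∈ atlas ℂ X, ∀ e' ∈ atlas ℂ X, ∀ x ∈ U, x ∈ e.source → x ∈ e'.source →
      deriv (fun z => e' (e.symm z)) (e x) ≠ 0 := by
    intro e he e' he' x hx hxe hxe' hcon
    have h2 := hη.2 e he e' he' x hx hxe hxe'
    rw [hcon, pow_one, mul_zero] at h2
    exact h1 e he x hx hxe h2
  refine ⟨h1, h3, fun m q V _ _ hq => ?_⟩
  have h4 : ∀ e ∈ atlas ℂ X, ∀ x ∈ U ∩ V, x ∈ e.source → quo q η m x = q e x / η e x ^ m := by
    intro e he x hx hxe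
    have hc := chart_mem_atlas ℂ x
    have hs := mem_chart_source ℂ x
    have h5 := hq.2 e he (chartAt ℂ x) hc x hx.2 hxe hs
    have h6 := hη.2 e he (chartAt ℂ x) hc x hx.1 hxe hs
    have h7 := h3 e he (chartAt ℂ x) hc x hx.1 hxe hs
    have h8 := h1 _ hc x hx.1 hs
    unfold quo
    rw [h5, h6, pow_one, mul_pow, mul_div_mul_right _ _ (pow_ne_zero _ h7)]
  refine ⟨fun e he => ?_, h4⟩
  have h9 : DifferentiableOn ℂ (fun z => q e (e.symm z) / η e (e.symm z) ^ m)
      (e.target ∩ e.symm ⁻¹' (U ∩ V)) := by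
    apply DifferentiableOn.div
    · exact (hq.1 e he).mono fun z hz => ⟨hz.1, hz.2.2⟩
    · exact ((hη.1 e he).mono fun z hz => ⟨hz.1, hz.2.1⟩).pow m
    · intro z hz
      exact pow_ne_zero _ (h1 e he _ hz.2.1 (e.map_target hz.1))
  refine h9.congr fun z hz => ?_
  exact h4 e he _ hz.2 (e.map_target hz.1)

end Pool.Agent.DL
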