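import Pool.Agent.helper67.DL.SpecG
import Pool.Agent.helper54.DL.GA

/-! # Project dl, module UN: two harmonic metrics of one Higgs bundle -/

namespace Pool.Agent.DL

open Matrix Complex
open scoped ComplexOrder Manifold ContDiff Topology

noncomputable section

/-! ## Calculus with `dz`, `dzb` -/

theorem UN_dzb_mul {f g : ℂ → ℂ} {z : ℂ} (hf : DifferentiableAt ℝ f z) (hg : DifferentiableAt ℝ g z) :
    dzb (fun w => f w * g w) z = dzb f z * g z + f z * dzb g z := by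
  unfold dzb
  rw [fderiv_fun_mul hf hg]
  simp only [ContinuousLinearMap.add_apply, ContinuousLinearMap.smul_apply, smul_eq_mul]
  ring

theorem UN_dzb_sum {ι : Type} (s : Finset ι) {f : ι → ℂ → ℂ} {z : ℂ}
    (hf : ∀ i ∈ s, DifferentiableAt ℝ (f i) z) :
    dzb (fun w => ∑ i ∈ s, f i w) z = ∑ i ∈ s, dzb (f i) z := by
  unfold dzb
  rw [fderiv_fun_sum hf]
  simp only [ContinuousLinearMap.sum_apply]
  rw [← Finset.sum_div, Finset.sum_add_distrib, Finset.mul_sum]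

theorem UN_dzb_congr {f g : ℂ → ℂ} {z : ℂ} (h : f =ᶠ[𝓝 z] g) : dzb f z = dzb g z := by
  unfold dzb
  rw [h.fderiv_eq]

theorem UN_dzb_conj {f : ℂ → ℂ} {z : ℂ} (hf : DifferentiableAt ℝ f z) :
    dzb (fun w => star (f w)) z = star (dz f z) := by
  unfold dzb dz
  have h1 : HasFDerivAt (fun w => star (f w)) ((Complex.conjCLE : ℂ →L[ℝ] ℂ).comp (fderiv ℝ f z)) z :=
    (Complex.conjCLE : ℂ →L[ℝ] ℂ).hasFDerivAt.comp z hf.hasFDerivAt
  rw [h1.fderiv]
  simp only [ContinuousLinearMap.comp_apply]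
  change ((starRingEnd ℂ) (fderiv ℝ f z 1) + I * (starRingEnd ℂ) (fderiv ℝ f z I)) / 2 =
    (starRingEnd ℂ) ((fderiv ℝ f z 1 - I * fderiv ℝ f z I) / 2)
  rw [map_div₀, map_sub, map_mul, conj_I]
  have h2 : (starRingEnd ℂ) (2 : ℂ) = 2 := map_ofNat _ 2
  rw [h2]
  ring

theorem UN_holo {f : ℂ → ℂ} {z : ℂ} (hf : DifferentiableAt ℝ f z) (h : dzb f z = 0) :
    DifferentiableAt ℂ f z := by
  rw [differentiableAt_complex_iff_differentiableAt_real]
  refine ⟨hf, ?_⟩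
  unfold dzb at h
  have h1 : fderiv ℝ f z 1 + I * fderiv ℝ f z I = 0 := by
    rcases div_eq_zero_iff.mp h with h | h
    · exact h
    · norm_num at h
  have h2 : I * (fderiv ℝ f z 1 + I * fderiv ℝ f z I) = 0 := by rw [h1, mul_zero]
  rw [mul_add, ← mul_assoc, I_mul_I] at h2
  rw [smul_eq_mul]
  linear_combination -h2

/-! ## Differentiability of determinants and inverses -/

theorem UN_prod {ι : Type} (s : Finset ι) {f : ι → ℂ → ℂ} {z : ℂ}
    (hf : ∀ i ∈ s, DifferentiableAt ℝ (f i) z) : DifferentiableAt ℝ (fun w => ∏ i ∈ s, f i w) z := by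
  classical
  induction s using Finset.induction_on with
  | empty => simp
  | insert a s ha ih =>
    simp only [Finset.prod_insert ha]
    exact (hf a (Finset.mem_insert_self a s)).mul (ih fun i hi => hf i (Finset.mem_insert_of_mem hi))

theorem UN_det {n : ℕ} {F : ℂ → Matrix (Fin n) (Fin n) ℂ} {z : ℂ}
    (hF : ∀ a b, DifferentiableAt ℝ (fun w => F w a b) z) : DifferentiableAt ℝ (fun w => (F w).det) z := by
  simp only [det_apply]
  apply DifferentiableAt.fun_sum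
  intro σ _
  have h1 : DifferentiableAt ℝ (fun w => ∏ i, F w (σ i) i) z :=
    UN_prod Finset.univ (f := fun i w => F w (σ i) i) fun i _ => hF (σ i) i
  rcases Int.units_eq_one_or (Equiv.Perm.sign σ) with h | h
  · simpa [h] using h1
  · simpa [h] using h1.neg

theorem UN_inv {n : ℕ} {F : ℂ → Matrix (Fin n) (Fin n) ℂ} {z : ℂ}
    (hF : ∀ a b, DifferentiableAt ℝ (fun w => F w a b) z) (h0 : (F z).det ≠ 0) (a b : Fin n) :
    DifferentiableAt ℝ (fun w => (F w)⁻¹ a b) z := by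
  have h1 : (fun w => (F w)⁻¹ a b) =
      fun w => ((F w).det)⁻¹ * ((F w).updateRow b (Pi.single a 1)).det := by
    funext w
    rw [Matrix.inv_def, Matrix.smul_apply, Ring.inverse_eq_inv', smul_eq_mul, adjugate_apply]
  rw [h1]
  apply DifferentiableAt.mul
  · exact (UN_det hF).inv h0
  · apply UN_det
    intro c d
    by_cases hc : c = b
    · subst hc
      have h2 : (fun w => (F w).updateRow c (Pi.single a 1) c d) = fun _ => (Pi.single a 1 : Fin n → ℂ) d := by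
        funext w
        rw [updateRow_self]
      rw [h2]
      exact differentiableAt_const _
    · have h2 : (fun w => (F w).updateRow b (Pi.single a 1) c d) = fun w => F w c d := by
        funext w
        rw [updateRow_ne hc]
      rw [h2]
      exact hF c d

theorem UN_mul {l m n : ℕ} {F : ℂ → Matrix (Fin l) (Fin m) ℂ} {G : ℂ → Matrix (Fin m) (Fin n) ℂ} {z : ℂ}
    (hF : ∀ a b, DifferentiableAt ℝ (fun w => F w a b) z)
    (hG : ∀ a b, DifferentiableAt ℝ (fun w => G w a b) z) (a : Fin l) (b : Fin n) :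
    DifferentiableAt ℝ (fun w => (F w * G w) a b) z := by
  simp only [mul_apply]
  exact DifferentiableAt.fun_sum fun c _ => (hF a c).mul (hG c b)

theorem UN_mdzb_mul {n : ℕ} {F G : ℂ → Matrix (Fin n) (Fin n) ℂ} {z : ℂ}
    (hF : ∀ a b, DifferentiableAt ℝ (fun w => F w a b) z)
    (hG : ∀ a b, DifferentiableAt ℝ (fun w => G w a b) z) :
    mdzb (fun w => F w * G w) z = mdzb F z * G z + F z * mdzb G z := by
  ext a b
  change dzb (fun w => (F w * G w) a b) z = (mdzb F z * G z) a b + (F z * mdzb G z) a b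
  have h1 : (fun w => (F w * G w) a b) = fun w => ∑ c, (fun w => F w a c * G w c b) w := by
    funext w
    rw [mul_apply]
  rw [h1, UN_dzb_sum Finset.univ (f := fun c w => F w a c * G w c b)
    fun c _ => (hF a c).mul (hG c b), mul_apply, mul_apply, ← Finset.sum_add_distrib]
  exact Finset.sum_congr rfl fun c _ => UN_dzb_mul (hF a c) (hG c b)

theorem UN_mdzb_congr {n : ℕ} {F G : ℂ → Matrix (Fin n) (Fin n) ℂ} {z : ℂ}
    (h : F =ᶠ[𝓝 z] G) : mdzb F z = mdzb G z := by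
  ext a b
  change dzb (fun w => F w a b) z = dzb (fun w => G w a b) z
  exact UN_dzb_congr (h.mono fun w hw => congrFun (congrFun hw a) b)

/-- `∂̄H = (∂H)ᴴ` for hermitian `H`. -/
theorem UN_mdzb_herm {n : ℕ} {H : ℂ → Matrix (Fin n) (Fin n) ℂ} {z : ℂ}
    (hH : ∀ a b, DifferentiableAt ℝ (fun w => H w a b) z) (h : ∀ᶠ w in 𝓝 z, (H w)ᴴ = H w) :
    mdzb H z = (mdz H z)ᴴ := by
  ext a b
  rw [conjTranspose_apply]
  change dzb (fun w => H w a b) z = star (dz (fun w => H w b a) z)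
  rw [← UN_dzb_conj (hH b a)]
  refine UN_dzb_congr (h.mono fun w hw => ?_)
  change H w a b = star (H w b a)
  rw [← conjTranspose_apply, hw]

/-! ## Linear algebra -/

theorem UN_trace {m n : ℕ} (Q : Matrix (Fin m) (Fin n) ℂ) (h : (trace (Qᴴ * Q)).re = 0) : Q = 0 := by
  have h1 : (trace (Qᴴ * Q)).re = ∑ b, ∑ a, ‖Q a b‖ ^ 2 := by
    simp only [trace, diag_apply, mul_apply, conjTranspose_apply, re_sum]
    refine Finset.sum_congr rfl fun b _ => Finset.sum_congr rfl fun a _ => ?_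
    change ((starRingEnd ℂ) (Q a b) * Q a b).re = ‖Q a b‖ ^ 2
    rw [conj_mul', ← ofReal_pow, ofReal_re]
  rw [h1] at h
  ext a b
  have h2 := (Finset.sum_eq_zero_iff_of_nonneg fun b _ =>
    Finset.sum_nonneg fun a _ => sq_nonneg ‖Q a b‖).mp h b (Finset.mem_univ b)
  have h3 := (Finset.sum_eq_zero_iff_of_nonneg fun a _ => sq_nonneg ‖Q a b‖).mp h2 a
    (Finset.mem_univ a)
  have h4 : ‖Q a b‖ = 0 := by
    exact pow_eq_zero_iff (two_ne_zero) |>.mp h3
  exact norm_eq_zero.mp h4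

theorem UN_nn2 (hMR : MR_stmt) {m n : ℕ} (H₁ : Matrix (Fin n) (Fin n) ℂ) (H₂ : Matrix (Fin m) (Fin m) ℂ)
    (h₁ : H₁.PosDef) (h₂ : H₂.PosDef) (Q : Matrix (Fin m) (Fin n) ℂ) (h : nn2 H₁ H₂ Q = 0) : Q = 0 := by
  obtain ⟨L₁, hL₁, e₁, -, -⟩ := hMR n H₁ h₁
  obtain ⟨L₂, hL₂, e₂, -, -⟩ := hMR m H₂ h₂
  have hL₁' : IsUnit L₁ := (isUnit_iff_isUnit_det L₁).mpr hL₁
  have k1 : L₁⁻¹ * L₁ = 1 := nonsing_inv_mul _ hL₁
  have k2 : L₂⁻¹ * L₂ = 1 := nonsing_inv_mul _ hL₂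
  have h3 : nn2 H₁ H₂ Q = (trace ((L₂ * Q * L₁⁻¹)ᴴ * (L₂ * Q * L₁⁻¹))).re := by
    unfold nn2
    refine congrArg Complex.re ?_
    rw [e₁, e₂, Matrix.mul_inv_rev, conjTranspose_mul, conjTranspose_mul, conjTranspose_nonsing_inv]
    rw [show L₁⁻¹ * L₁ᴴ⁻¹ * Qᴴ * (L₂ᴴ * L₂) * Q = L₁⁻¹ * (L₁ᴴ⁻¹ * (Qᴴ * L₂ᴴ) * (L₂ * Q)) by
      simp only [Matrix.mul_assoc]]
    rw [trace_mul_comm]
    simp only [Matrix.mul_assoc]
  rw [h3] at h
  have h4 := UN_trace _ h
  calc Q = L₂⁻¹ * L₂ * Q * (L₁⁻¹ * L₁) := by rw [k1, k2, Matrix.one_mul, Matrix.mul_one]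
    _ = L₂⁻¹ * (L₂ * Q * L₁⁻¹) * L₁ := by simp only [Matrix.mul_assoc]
    _ = 0 := by rw [h4, Matrix.mul_zero, Matrix.zero_mul]

/-- The function `tr (H⁻¹H')` does not depend on the frame. -/
theorem UN_inv_frame {n : ℕ} (g g' H H' : Matrix (Fin n) (Fin n) ℂ) (hg : g * g' = 1) :
    nn2 (gᴴ * H * g) (gᴴ * H' * g) 1 = nn2 H H' 1 := by
  have hdet : IsUnit g.det := by
    have : g.det * g'.det = 1 := by rw [← det_mul, hg, det_one]
    exact IsUnit.of_mul_eq_one _ this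
  have hdet' : IsUnit gᴴ.det := by
    rw [det_conjTranspose]
    exact hdet.star
  have k1 : gᴴ⁻¹ * gᴴ = 1 := nonsing_inv_mul _ hdet'
  unfold nn2
  refine congrArg Complex.re ?_
  rw [Matrix.mul_inv_rev, Matrix.mul_inv_rev, conjTranspose_one]
  simp only [Matrix.mul_one]
  rw [show g⁻¹ * (H⁻¹ * gᴴ⁻¹) * (gᴴ * H' * g) = g⁻¹ * (H⁻¹ * (gᴴ⁻¹ * gᴴ) * H' * g) by
    simp only [Matrix.mul_assoc]]
  rw [k1, trace_mul_comm, Matrix.mul_one, Matrix.mul_assoc, mul_nonsing_inv _ hdet, Matrix.mul_one]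

theorem UN_adj {n : ℕ} {H H' A : Matrix (Fin n) (Fin n) ℂ} (hH : H.PosDef) (hH' : H'.PosDef)
    (h : adj H A = adj H' A) : A * (H⁻¹ * H') = H⁻¹ * H' * A := by
  have d1 : IsUnit H.det := (isUnit_iff_isUnit_det H).mp hH.isUnit
  have d2 : IsUnit H'.det := (isUnit_iff_isUnit_det H').mp hH'.isUnit
  have c1 : Hᴴ = H := hH.1
  have c2 : H'ᴴ = H' := hH'.1
  unfold adj at h
  have h1 : H' * (H⁻¹ * Aᴴ * H) * H⁻¹ = H' * (H'⁻¹ * Aᴴ * H') * H⁻¹ := by rw [h]
  have h2 : H' * (H⁻¹ * Aᴴ * H) * H⁻¹ = H' * H⁻¹ * Aᴴ := by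
    rw [show H' * (H⁻¹ * Aᴴ * H) * H⁻¹ = H' * H⁻¹ * Aᴴ * (H * H⁻¹) by simp only [Matrix.mul_assoc],
      mul_nonsing_inv _ d1, Matrix.mul_one]
  have h3 : H' * (H'⁻¹ * Aᴴ * H') * H⁻¹ = Aᴴ * (H' * H⁻¹) := by
    rw [show H' * (H'⁻¹ * Aᴴ * H') * H⁻¹ = (H' * H'⁻¹) * (Aᴴ * (H' * H⁻¹)) by
      simp only [Matrix.mul_assoc], mul_nonsing_inv _ d2, Matrix.one_mul]
  rw [h2, h3] at h1
  have h4 := congrArg conjTranspose h1
  rw [conjTranspose_mul, conjTranspose_mul, conjTranspose_mul, conjTranspose_mul,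
    conjTranspose_conjTranspose, conjTranspose_nonsing_inv, c1, c2] at h4
  exact h4

/-! ## The local statement -/

theorem UN_adj_hol {n : ℕ} {Ω : Set ℂ} {H H' : ℂ → Matrix (Fin n) (Fin n) ℂ} (hΩ : IsOpen Ω)
    (hp : ∀ z ∈ Ω, (H z).PosDef) (hp' : ∀ z ∈ Ω, (H' z).PosDef)
    (hs : ∀ a b, ContDiffOn ℝ 2 (fun z => H z a b) Ω) (hs' : ∀ a b, ContDiffOn ℝ 2 (fun z => H' z a b) Ω)
    (hθ : ∀ z ∈ Ω, (H' z)⁻¹ * mdz H' z = (H z)⁻¹ * mdz H z) (a b : Fin n) :
    DifferentiableOn ℂ (fun z => ((H z)⁻¹ * H' z) a b) Ω := by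
  intro z hz
  apply DifferentiableAt.differentiableWithinAt
  have hn : Ω ∈ 𝓝 z := hΩ.mem_nhds hz
  have dH : ∀ a b, DifferentiableAt ℝ (fun w => H w a b) z := fun a b =>
    ((hs a b).contDiffAt hn).differentiableAt (by norm_num)
  have dH' : ∀ a b, DifferentiableAt ℝ (fun w => H' w a b) z := fun a b =>
    ((hs' a b).contDiffAt hn).differentiableAt (by norm_num)
  have det0 : ∀ w ∈ Ω, IsUnit (H w).det := fun w hw =>
    (isUnit_iff_isUnit_det (H w)).mp (hp w hw).isUnit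
  have det0' : ∀ w ∈ Ω, IsUnit (H' w).det := fun w hw =>
    (isUnit_iff_isUnit_det (H' w)).mp (hp' w hw).isUnit
  have dS : ∀ a b, DifferentiableAt ℝ (fun w => ((H w)⁻¹ * H' w) a b) z :=
    UN_mul (F := fun w => (H w)⁻¹) (G := H') (UN_inv dH (det0 z hz).ne_zero) dH'
  have e1 : mdzb (fun w => H w * ((H w)⁻¹ * H' w)) z = mdzb H' z := by
    apply UN_mdzb_congr
    filter_upwards [hn] with w hw
    rw [← Matrix.mul_assoc, mul_nonsing_inv _ (det0 w hw), Matrix.one_mul]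
  have e2 := UN_mdzb_mul (F := H) (G := fun w => (H w)⁻¹ * H' w) dH dS
  rw [e1] at e2
  have e3 : mdzb H z = (mdz H z)ᴴ := UN_mdzb_herm dH (by
    filter_upwards [hn] with w hw using (hp w hw).1)
  have e4 : mdzb H' z = (mdz H' z)ᴴ := UN_mdzb_herm dH' (by
    filter_upwards [hn] with w hw using (hp' w hw).1)
  -- `∂H = H θ`, `∂H' = H' θ`
  have t1 : mdz H z = H z * ((H z)⁻¹ * mdz H z) := by
    rw [← Matrix.mul_assoc, mul_nonsing_inv _ (det0 z hz), Matrix.one_mul]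
  have t2 : mdz H' z = H' z * ((H z)⁻¹ * mdz H z) := by
    rw [← hθ z hz, ← Matrix.mul_assoc, mul_nonsing_inv _ (det0' z hz), Matrix.one_mul]
  set θ := (H z)⁻¹ * mdz H z with hθdef
  have e5 : mdzb H z = θᴴ * H z := by
    rw [e3, t1, conjTranspose_mul, (hp z hz).1.eq]
  have e6 : mdzb H' z = θᴴ * H' z := by
    rw [e4, t2, conjTranspose_mul, (hp' z hz).1.eq]
  rw [e5, e6, Matrix.mul_assoc, ← Matrix.mul_assoc (H z), mul_nonsing_inv _ (det0 z hz),
    Matrix.one_mul] at e2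
  have e7 : H z * mdzb (fun w => (H w)⁻¹ * H' w) z = 0 := by
    have := e2
    rwa [left_eq_add] at this
  have e8 : mdzb (fun w => (H w)⁻¹ * H' w) z = 0 := by
    have e9 : (H z)⁻¹ * (H z * mdzb (fun w => (H w)⁻¹ * H' w) z) = 0 := by
      rw [e7, Matrix.mul_zero]
    rwa [← Matrix.mul_assoc, nonsing_inv_mul _ (det0 z hz), Matrix.one_mul] at e9
  exact UN_holo (dS a b) (congrFun (congrFun e8 a) b)

theorem UN_lap_congr {u v : ℂ → ℝ} {z : ℂ} (h : u =ᶠ[𝓝 z] v) : lap u z = lap v z := by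
  have h1 : ∀ c : ℂ, (fun t : ℝ => u (z + t * c)) =ᶠ[𝓝 0] fun t : ℝ => v (z + t * c) := by
    intro c
    have hc : Filter.Tendsto (fun t : ℝ => z + t * c) (𝓝 0) (𝓝 z) := by
      have : Continuous fun t : ℝ => z + t * c := by fun_prop
      have h2 := this.tendsto 0
      simpa using h2
    exact hc.eventually h
  unfold lap
  have h2 := (h1 1).iteratedDeriv_eq 2
  have h3 := (h1 I).iteratedDeriv_eq 2
  simp only [mul_one] at h2
  rw [h2, h3]

theorem UN_lap_const (c : ℝ) (z : ℂ) : lap (fun _ => c) z = 0 := by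
  unfold lap
  rw [iteratedDeriv_const]
  simp

theorem UN (hWI : WI_stmt) (hMR : MR_stmt) (hSX : SX_stmt) : UN_stmt := by
  intro X _ _ hT n B hB H H' hH hH' i
  obtain ⟨-, hcomp, -, hconn⟩ := hT
  obtain ⟨hopen, hcov, hdif, hne⟩ := hB.cov
  choose κ hκ using hcov
  set N : X → ℝ := fun x => nn2 (H (κ x) x) (H' (κ x) x) 1 with hN
  have hinv : ∀ j, ∀ x ∈ B.C.U j, N x = nn2 (H j x) (H' j x) 1 := by
    intro j x hx
    have h1 := hH.glue j (κ x) x ⟨hx, hκ x⟩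
    have h2 := hH'.glue j (κ x) x ⟨hx, hκ x⟩
    have h3 := hB.g_mul j (κ x) j x ⟨⟨hx, hκ x⟩, hx⟩
    rw [hB.g_self j x hx] at h3
    change nn2 (H (κ x) x) (H' (κ x) x) 1 = _
    rw [h1, h2]
    exact UN_inv_frame _ _ _ _ h3
  have hw : ∀ j, ∀ e ∈ atlas ℂ X, ∀ z ∈ e.target ∩ e.symm ⁻¹' B.C.U j,
      0 < ‖B.C.η j e (e.symm z)‖ ^ 2 := by
    intro j e he z hz
    have h1 := (GA X (B.C.U j) (B.C.η j) (hdif j) (hne j)).1 e he (e.symm z) hz.2
      (e.map_target hz.1)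
    exact pow_pos (norm_pos_iff.mpr h1) 2
  -- local consequences of the identity
  have hloc : ∀ j, ∀ e ∈ atlas ℂ X,
      ContDiffOn ℝ 2 (fun z => nn2 (H j (e.symm z)) (H' j (e.symm z)) 1)
        (e.target ∩ e.symm ⁻¹' B.C.U j) ∧ ∀ z ∈ e.target ∩ e.symm ⁻¹' B.C.U j,
      0 ≤ nn2 (H j (e.symm z)) (H' j (e.symm z))
        ((H' j (e.symm z))⁻¹ * mdz (fun w => H' j (e.symm w)) z -
          (H j (e.symm z))⁻¹ * mdz (fun w => H j (e.symm w)) z) ∧
      0 ≤ nn2 (H j (e.symm z)) (H' j (e.symm z))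
        (adj (H j (e.symm z)) (B.A j (e.symm z)) - adj (H' j (e.symm z)) (B.A j (e.symm z))) ∧
      lap (fun w => nn2 (H j (e.symm w)) (H' j (e.symm w)) 1) z =
        nn2 (H j (e.symm z)) (H' j (e.symm z))
          ((H' j (e.symm z))⁻¹ * mdz (fun w => H' j (e.symm w)) z -
            (H j (e.symm z))⁻¹ * mdz (fun w => H j (e.symm w)) z) +
        ‖B.C.η j e (e.symm z)‖ ^ 2 * nn2 (H j (e.symm z)) (H' j (e.symm z))
          (adj (H j (e.symm z)) (B.A j (e.symm z)) - adj (H' j (e.symm z)) (B.A j (e.symm z))) := by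
    intro j e he
    have hΩ : IsOpen (e.target ∩ e.symm ⁻¹' B.C.U j) := e.isOpen_inter_preimage_symm (hopen j)
    have h1 := hWI n n (e.target ∩ e.symm ⁻¹' B.C.U j) (fun z => ‖B.C.η j e (e.symm z)‖ ^ 2)
      (fun z => B.A j (e.symm z)) (fun z => H j (e.symm z)) (fun z => B.A j (e.symm z))
      (fun z => H' j (e.symm z)) (fun _ => 1) hΩ
      (fun a b => hB.A_holo j a b e he) (fun a b => hB.A_holo j a b e he)
      (fun a b => differentiableOn_const _) (hH.loc j e he) (hH'.loc j e he)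
      (fun z _ => by rw [Matrix.one_mul, Matrix.mul_one])
    refine ⟨h1.1, fun z hz => ?_⟩
    obtain ⟨h2, h3, h4, -⟩ := h1.2 z hz
    have h5 : mdz (fun _ : ℂ => (1 : Matrix (Fin n) (Fin n) ℂ)) z = 0 := by
      ext a b
      change dz (fun _ => (1 : Matrix (Fin n) (Fin n) ℂ) a b) z = 0
      unfold dz
      rw [fderiv_const_apply]
      simp
    simp only [h5, Matrix.mul_one, Matrix.one_mul, zero_add] at h2 h3 h4
    exact ⟨h2, h3, h4⟩
  have hNe : ∀ e ∈ atlas ℂ X, ∀ j, ∀ z ∈ e.target ∩ e.symm ⁻¹' B.C.U j,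
      (fun w => N (e.symm w)) =ᶠ[𝓝 z] fun w => nn2 (H j (e.symm w)) (H' j (e.symm w)) 1 := by
    intro e he j z hz
    have hΩ : IsOpen (e.target ∩ e.symm ⁻¹' B.C.U j) := e.isOpen_inter_preimage_symm (hopen j)
    filter_upwards [hΩ.mem_nhds hz] with w hw'
    exact hinv j _ hw'.2
  have hconst : ∀ x y, N x = N y := by
    refine hSX X hcomp hconn N fun e he => ⟨fun z hz => ?_, fun z hz => ?_⟩
    · have hz' : z ∈ e.target ∩ e.symm ⁻¹' B.C.U (κ (e.symm z)) := ⟨hz, hκ _⟩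
      have hΩ : IsOpen (e.target ∩ e.symm ⁻¹' B.C.U (κ (e.symm z))) :=
        e.isOpen_inter_preimage_symm (hopen _)
      have h1 := ((hloc _ e he).1.contDiffAt (hΩ.mem_nhds hz')).congr_of_eventuallyEq
        (hNe e he _ z hz')
      exact h1.contDiffWithinAt
    · have hz' : z ∈ e.target ∩ e.symm ⁻¹' B.C.U (κ (e.symm z)) := ⟨hz, hκ _⟩
      obtain ⟨h2, h3, h4⟩ := (hloc _ e he).2 z hz'
      rw [UN_lap_congr (hNe e he _ z hz'), h4]
      exact add_nonneg h2 (mul_nonneg (sq_nonneg _) h3)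
  have hzero : ∀ j, ∀ e ∈ atlas ℂ X, ∀ z ∈ e.target ∩ e.symm ⁻¹' B.C.U j,
      (H' j (e.symm z))⁻¹ * mdz (fun w => H' j (e.symm w)) z =
        (H j (e.symm z))⁻¹ * mdz (fun w => H j (e.symm w)) z ∧
      adj (H j (e.symm z)) (B.A j (e.symm z)) = adj (H' j (e.symm z)) (B.A j (e.symm z)) := by
    intro j e he z hz
    obtain ⟨h2, h3, h4⟩ := (hloc j e he).2 z hz
    have h5 : lap (fun w => N (e.symm w)) z = 0 := by
      have h6 : (fun w => N (e.symm w)) = fun _ => N (e.symm z) := by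
        funext w; exact hconst _ _
      rw [h6]
      exact UN_lap_const _ _
    rw [← UN_lap_congr (hNe e he j z hz), h5] at h4
    have h7 := hw j e he z hz
    have h8 := mul_nonneg h7.le h3
    have h9 : nn2 (H j (e.symm z)) (H' j (e.symm z))
        ((H' j (e.symm z))⁻¹ * mdz (fun w => H' j (e.symm w)) z -
          (H j (e.symm z))⁻¹ * mdz (fun w => H j (e.symm w)) z) = 0 := by linarith
    have h10 : ‖B.C.η j e (e.symm z)‖ ^ 2 * nn2 (H j (e.symm z)) (H' j (e.symm z))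
        (adj (H j (e.symm z)) (B.A j (e.symm z)) - adj (H' j (e.symm z)) (B.A j (e.symm z))) = 0 := by
      linarith
    have h11 := (mul_eq_zero.mp h10).resolve_left h7.ne'
    have p1 := (hH.loc j e he).pos z hz
    have p2 := (hH'.loc j e he).pos z hz
    exact ⟨sub_eq_zero.mp (UN_nn2 hMR _ _ p1 p2 _ h9), sub_eq_zero.mp (UN_nn2 hMR _ _ p1 p2 _ h11)⟩
  refine ⟨fun a b e he => ?_, fun x hx => ?_⟩
  · exact UN_adj_hol (H := fun z => H i (e.symm z)) (H' := fun z => H' i (e.symm z))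
      (e.isOpen_inter_preimage_symm (hopen i))
      (hH.loc i e he).pos (hH'.loc i e he).pos (hH.loc i e he).smooth (hH'.loc i e he).smooth
      (fun z hz => (hzero i e he z hz).1) a b
  · have hs := mem_chart_source ℂ x
    have hz : chartAt ℂ x x ∈ (chartAt ℂ x).target ∩ (chartAt ℂ x).symm ⁻¹' B.C.U i := by
      refine ⟨(chartAt ℂ x).map_source hs, ?_⟩
      rw [Set.mem_preimage, (chartAt ℂ x).left_inv hs]
      exact hx
    have h1 := (hzero i _ (chart_mem_atlas ℂ x) _ hz).2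
    have p1 := (hH.loc i _ (chart_mem_atlas ℂ x)).pos _ hz
    have p2 := (hH'.loc i _ (chart_mem_atlas ℂ x)).pos _ hz
    simp only [(chartAt ℂ x).left_inv hs] at h1 p1 p2
    exact UN_adj p1 p2 h1

end

end Pool.Agent.DL
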